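import Mathlib
import Pool.Agent.LeoD.CountStmts

/-!
# LTI: the local condition at a prime above 3 is invariant (squad LEOD)
-/

set_option autoImplicit false

open NumberField NumberField.InfinitePlace NumberField.mixedEmbedding IsDedekindDomain Module
  MeasureTheory Filter Topology
open Pool.Agent.Helper85_Leo Pool.Agent.LeoK Pool.Agent.LeoG Pool.Agent.LeoC

open scoped Classical

namespace Pool.Agent.LeoD.H2

section ring

variable {A : Type} [CommRing A]

theorem gval_gact (F : Q4 A) (x y z w X Y : A) :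
    gval (gact F x y z w) X Y = gval F (x * X + y * Y) (z * X + w * Y) := by
  simp only [gval, gact, Matrix.cons_val_zero, Matrix.cons_val_one, Matrix.cons_val]
  ring

theorem gact_gact (F : Q4 A) (x₁ y₁ z₁ w₁ x y z w : A) (i : Fin 4) :
    gact (gact F x₁ y₁ z₁ w₁) x y z w i =
      gact F (x₁ * x + y₁ * z) (x₁ * y + y₁ * w) (z₁ * x + w₁ * z) (z₁ * y + w₁ * w) i := by
  fin_cases i
  · simp only [gval, gact, Matrix.cons_val_zero, Matrix.cons_val_one, Matrix.cons_val,
      Fin.zero_eta]
    ring
  · simp only [gval, gact, Matrix.cons_val_zero, Matrix.cons_val_one, Matrix.cons_val,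
      Fin.mk_one]
    ring
  · simp only [gval, gact, Matrix.cons_val_zero, Matrix.cons_val_one, Matrix.cons_val,
      Fin.reduceFinMk]
    ring
  · simp only [gval, gact, Matrix.cons_val_zero, Matrix.cons_val_one, Matrix.cons_val,
      Fin.reduceFinMk]
    ring

theorem gact_mem (I : Ideal A) (F : Q4 A) (hF : ∀ i, F i ∈ I) (x y z w : A) (i : Fin 4) :
    gact F x y z w i ∈ I := by
  have h0 := hF 0
  have h1 := hF 1
  have h2 := hF 2
  have h3 := hF 3
  have key : ∀ a b c d : A, F 0 * a + F 1 * b + F 2 * c + F 3 * d ∈ I := by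
    intro a b c d
    exact I.add_mem (I.add_mem (I.add_mem (I.mul_mem_right _ h0) (I.mul_mem_right _ h1))
      (I.mul_mem_right _ h2)) (I.mul_mem_right _ h3)
  fin_cases i
  · have : gact F x y z w 0 = F 0 * x ^ 3 + F 1 * (x ^ 2 * z) + F 2 * (x * z ^ 2) +
        F 3 * z ^ 3 := by
      simp only [gval, gact, Matrix.cons_val_zero]
      ring
    change gact F x y z w 0 ∈ I
    rw [this]
    exact key _ _ _ _
  · have : gact F x y z w 1 = F 0 * (3 * x ^ 2 * y) + F 1 * (x ^ 2 * w + 2 * x * y * z) +
        F 2 * (2 * x * z * w + y * z ^ 2) + F 3 * (3 * z ^ 2 * w) := by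
      simp only [gval, gact, Matrix.cons_val_one, Matrix.cons_val_zero]
      ring
    change gact F x y z w 1 ∈ I
    rw [this]
    exact key _ _ _ _
  · have : gact F x y z w 2 = F 0 * (3 * x * y ^ 2) + F 1 * (2 * x * y * w + y ^ 2 * z) +
        F 2 * (x * w ^ 2 + 2 * y * z * w) + F 3 * (3 * z * w ^ 2) := by
      simp only [gval, gact, Matrix.cons_val]
      ring
    change gact F x y z w 2 ∈ I
    rw [this]
    exact key _ _ _ _
  · have : gact F x y z w 3 = F 0 * y ^ 3 + F 1 * (y ^ 2 * w) + F 2 * (y * w ^ 2) +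
        F 3 * w ^ 3 := by
      simp only [gval, gact, Matrix.cons_val]
      ring
    change gact F x y z w 3 ∈ I
    rw [this]
    exact key _ _ _ _

theorem gval_sub_mem (I : Ideal A) (F G : Q4 A) (D : A) (h : ∀ i, D * F i - G i ∈ I) (X Y : A) :
    D * gval F X Y - gval G X Y ∈ I := by
  have : D * gval F X Y - gval G X Y = X ^ 3 * (D * F 0 - G 0) + X ^ 2 * Y * (D * F 1 - G 1) +
      X * Y ^ 2 * (D * F 2 - G 2) + Y ^ 3 * (D * F 3 - G 3) := by
    unfold gval
    ring
  rw [this]
  exact I.add_mem (I.add_mem (I.add_mem (I.mul_mem_left _ (h 0)) (I.mul_mem_left _ (h 1)))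
    (I.mul_mem_left _ (h 2))) (I.mul_mem_left _ (h 3))

theorem gact_sub (F G : Q4 A) (D x y z w : A) (i : Fin 4) :
    D * gact F x y z w i - gact G x y z w i = gact (fun j => D * F j - G j) x y z w i := by
  fin_cases i
  · simp only [gval, gact, Matrix.cons_val_zero, Fin.zero_eta]
    ring
  · simp only [gact, Matrix.cons_val_zero, Matrix.cons_val_one, Fin.mk_one]
    ring
  · simp only [gact, Matrix.cons_val, Fin.reduceFinMk]
    ring
  · simp only [gval, gact, Matrix.cons_val, Fin.reduceFinMk]
    ring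

end ring

variable {k : Type} [Field k] [NumberField k]

/-- Division by an element which is a unit modulo `p`. -/
theorem div_mem (p : HeightOneSpectrum (𝓞 k)) (M : ℕ) (I : Ideal (𝓞 k)) (hI : p.asIdeal ^ M ≤ I)
    (D a : 𝓞 k) (hD : D ∉ p.asIdeal) (h : D * a ∈ I) : a ∈ I := by
  have hm : p.asIdeal.IsMaximal := p.isMaximal
  have h1 : IsCoprime (Ideal.span {D}) (p.asIdeal ^ M) := by
    apply IsCoprime.pow_right
    obtain ⟨y, i, hi, hyi⟩ := hm.exists_inv hD
    rw [Ideal.isCoprime_iff_exists]
    exact ⟨y * D, Ideal.mul_mem_left _ _ (Ideal.mem_span_singleton_self _), i, hi, hyi⟩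
  rw [Ideal.isCoprime_iff_exists] at h1
  obtain ⟨u, hu, v, hv, huv⟩ := h1
  obtain ⟨c, rfl⟩ := Ideal.mem_span_singleton.1 hu
  have : a = c * (D * a) + v * a := by
    linear_combination (-a) * huv
  rw [this]
  exact I.add_mem (I.mul_mem_left _ h) (I.mul_mem_right _ (hI hv))

theorem lti : LtiStmt := by
  intro k _ _ p M h F F' x y z w h3 hF hD hF'
  set D := x * w - y * z with hDdef
  have hp : p.asIdeal.IsPrime := p.isPrime
  rcases hF with ⟨h9, X, Y, hXY, hz⟩ | ⟨x₁, y₁, z₁, w₁, hd, ho⟩
  · left
    refine ⟨?_, ?_⟩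
    · intro i
      refine div_mem p M _ le_sup_right D _ hD ?_
      have h1 := gact_mem _ F h9 x y z w i
      have h2 : D * F' i - gact F x y z w i ∈ Ideal.span {(9 : 𝓞 k)} ⊔ p.asIdeal ^ M :=
        (le_sup_right : p.asIdeal ^ M ≤ _) (hF' i)
      have := Ideal.add_mem _ h2 h1
      rwa [sub_add_cancel] at this
    · refine ⟨w * X - y * Y, -z * X + x * Y, ?_, ?_⟩
      · rintro ⟨hX, hY⟩
        apply hXY
        constructor
        · have : D * X ∈ p.asIdeal := by
            have e : D * X = x * (w * X - y * Y) + y * (-z * X + x * Y) := by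
              rw [hDdef]
              ring
            rw [e]
            exact Ideal.add_mem _ (Ideal.mul_mem_left _ _ hX) (Ideal.mul_mem_left _ _ hY)
          exact (hp.mem_or_mem this).resolve_left hD
        · have : D * Y ∈ p.asIdeal := by
            have e : D * Y = z * (w * X - y * Y) + w * (-z * X + x * Y) := by
              rw [hDdef]
              ring
            rw [e]
            exact Ideal.add_mem _ (Ideal.mul_mem_left _ _ hX) (Ideal.mul_mem_left _ _ hY)
          exact (hp.mem_or_mem this).resolve_left hD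
      · refine div_mem p M _ le_sup_right D _ hD ?_
        have h1 := gval_sub_mem (p.asIdeal ^ M) F' (gact F x y z w) D hF' (w * X - y * Y)
          (-z * X + x * Y)
        rw [gval_gact] at h1
        have e1 : x * (w * X - y * Y) + y * (-z * X + x * Y) = D * X := by
          rw [hDdef]
          ring
        have e2 : z * (w * X - y * Y) + w * (-z * X + x * Y) = D * Y := by
          rw [hDdef]
          ring
        rw [e1, e2] at h1
        have e3 : gval F (D * X) (D * Y) = D ^ 3 * gval F X Y := by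
          unfold gval
          ring
        rw [e3] at h1
        have h2 : D ^ 3 * gval F X Y ∈ Ideal.span {(9 : 𝓞 k)} * p.asIdeal ⊔ p.asIdeal ^ M :=
          Ideal.mul_mem_left _ _ hz
        have h3 := Ideal.add_mem _ ((le_sup_right : p.asIdeal ^ M ≤
          Ideal.span {(9 : 𝓞 k)} * p.asIdeal ⊔ p.asIdeal ^ M) h1) h2
        rwa [sub_add_cancel] at h3
  · right
    refine ⟨x₁ * x + y₁ * z, x₁ * y + y₁ * w, z₁ * x + w₁ * z, z₁ * y + w₁ * w, ?_, ?_⟩
    · have e : (x₁ * x + y₁ * z) * (z₁ * y + w₁ * w) - (x₁ * y + y₁ * w) * (z₁ * x + w₁ * z) =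
          (x₁ * w₁ - y₁ * z₁) * D := by
        rw [hDdef]
        ring
      rw [e]
      intro hc
      rcases hp.mem_or_mem hc with hc | hc
      · exact hd hc
      · exact hD hc
    · intro i
      have e : (x₁ * x + y₁ * z) * (z₁ * y + w₁ * w) - (x₁ * y + y₁ * w) * (z₁ * x + w₁ * z) =
          (x₁ * w₁ - y₁ * z₁) * D := by
        rw [hDdef]
        ring
      rw [e, ← gact_gact]
      have h1 : (x₁ * w₁ - y₁ * z₁) * (D * F' i - gact F x y z w i) ∈ p.asIdeal ^ M :=
        Ideal.mul_mem_left _ _ (hF' i)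
      have h2 : (x₁ * w₁ - y₁ * z₁) * gact F x y z w i -
          gact (gact h x₁ y₁ z₁ w₁) x y z w i ∈ p.asIdeal ^ M := by
        rw [gact_sub]
        exact gact_mem _ _ ho x y z w i
      have h3 := Ideal.add_mem _ h1 h2
      have e2 : (x₁ * w₁ - y₁ * z₁) * (D * F' i - gact F x y z w i) +
          ((x₁ * w₁ - y₁ * z₁) * gact F x y z w i - gact (gact h x₁ y₁ z₁ w₁) x y z w i) =
          (x₁ * w₁ - y₁ * z₁) * D * F' i - gact (gact h x₁ y₁ z₁ w₁) x y z w i := by
        ring
      rwa [e2] at h3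

end Pool.Agent.LeoD.H2
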