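import Mathlib
import Pool.Agent.LeoD.CountStmts

/-!
# TYI: the type is invariant (squad LEOD)
-/

set_option autoImplicit false

open NumberField NumberField.InfinitePlace NumberField.mixedEmbedding IsDedekindDomain Module
  MeasureTheory Filter Topology
open Pool.Agent.Helper85_Leo Pool.Agent.LeoK Pool.Agent.LeoG Pool.Agent.LeoC

open scoped Classical

namespace Pool.Agent.LeoD.H2

variable {k : Type} [Field k] [NumberField k]

/-- An inverse of `b` modulo a power of a prime above 3. -/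
theorem inv_b (B : BFr k) (p : HeightOneSpectrum (𝓞 k)) (h3 : (3 : 𝓞 k) ∈ p.asIdeal) (n : ℕ) :
    ∃ be : 𝓞 k, 1 - be * (B.b : 𝓞 k) ∈ p.asIdeal ^ n := by
  have hc : Nat.Coprime B.b (3 ^ n) :=
    Nat.Coprime.pow_right n (Nat.Coprime.coprime_dvd_right (by norm_num) B.cop)
  have hi : IsCoprime (B.b : ℤ) ((3 : ℤ) ^ n) := by
    have := Nat.isCoprime_iff_coprime.2 hc
    push_cast at this
    exact this
  obtain ⟨u, v, huv⟩ := hi
  refine ⟨(u : 𝓞 k), ?_⟩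
  have h1 : (1 : 𝓞 k) - (u : 𝓞 k) * (B.b : 𝓞 k) = (v : 𝓞 k) * 3 ^ n := by
    have := congrArg (Int.cast : ℤ → 𝓞 k) huv
    push_cast at this
    rw [← this]
    ring
  rw [h1]
  exact Ideal.mul_mem_left _ _ (Ideal.pow_mem_pow h3 n)

theorem b_ne (B : BFr k) : B.b ≠ 0 := by
  intro h
  have := B.cop
  rw [h] at this
  norm_num at this

/-- Main computation. -/
theorem main (B : BFr k) (M : ℕ) (h : HeightOneSpectrum (𝓞 k) → Q4 (𝓞 k)) (lti : LtiStmt)
    (g : Q4 (𝓞 k)) (hg : Typ B M h g) (X Y y₁ w : 𝓞 k) (hY : Y ∈ B.bb) (hy : y₁ ∈ B.cc)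
    (hd : (B.b : 𝓞 k) * (X * w) - y₁ * Y = B.b) :
    ∃ g' : Q4 (𝓞 k), Typ B M h g' ∧
      ∀ i, (g' i : k) = gact (fun j => (g j : k)) (X : k) ((y₁ : k) / B.b) (Y : k) (w : k) i := by
  have hb0 : (B.b : 𝓞 k) ≠ 0 := by
    exact_mod_cast b_ne B
  have hbk : (B.b : k) ≠ 0 := by
    exact_mod_cast b_ne B
  -- products of `bb` and `cc`
  have hcb : ∀ c ∈ B.cc, ∀ y ∈ B.bb, ∃ t, c * y = (B.b : 𝓞 k) * t := by
    intro c hc y hy'
    have : y * c ∈ B.bb * B.cc := Ideal.mul_mem_mul hy' hc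
    rw [B.mul, Ideal.mem_span_singleton] at this
    obtain ⟨t, ht⟩ := this
    exact ⟨t, by rw [mul_comm, ht]⟩
  -- `y₁ Y = b t`
  obtain ⟨t, ht⟩ := hcb y₁ hy Y hY
  -- `A y₁ = b³ a₁`
  have hA := hg.c0
  obtain ⟨a₁, ha₁⟩ : ∃ a₁, g 0 * y₁ = (B.b : 𝓞 k) ^ 3 * a₁ := by
    rw [Ideal.mem_span_singleton_mul] at hA
    obtain ⟨a, ha, hA⟩ := hA
    obtain ⟨s, hs⟩ := hcb y₁ hy a ha
    refine ⟨s, ?_⟩
    rw [← hA]
    linear_combination (B.b : 𝓞 k) ^ 2 * hs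
  obtain ⟨B₁, hB₁⟩ := Ideal.mem_span_singleton.1 hg.c1
  have hC := hg.c2
  rw [Ideal.mem_span_singleton_mul] at hC
  obtain ⟨C₁, hC₁, hC⟩ := hC
  obtain ⟨c₂, hc₂⟩ := hcb C₁ hC₁ Y hY
  -- `D Y = b d₁`, `d₁ ∈ 𝔠`
  have hD := hg.c3
  obtain ⟨d₁, hd₁, hD₁⟩ : ∃ d₁ ∈ B.cc, g 3 * Y = (B.b : 𝓞 k) * d₁ := by
    have h1 : g 3 * Y ∈ Ideal.span {(B.b : 𝓞 k)} * B.cc := by
      rw [← B.mul, show B.bb * B.cc * B.cc = B.cc ^ 2 * B.bb by ring]
      exact Ideal.mul_mem_mul hD hY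
    rw [Ideal.mem_span_singleton_mul] at h1
    obtain ⟨d, hd, h1⟩ := h1
    exact ⟨d, hd, h1.symm⟩
  obtain ⟨d₂, hd₂⟩ := hcb d₁ hd₁ Y hY
  have ht1 : X * w = 1 + t := by
    have : (B.b : 𝓞 k) * (X * w) = (B.b : 𝓞 k) * (1 + t) := by
      linear_combination hd + ht
    exact mul_left_cancel₀ hb0 this
  set b : 𝓞 k := (B.b : 𝓞 k) with hbdef
  let g' : Q4 (𝓞 k) :=
    ![gval g X Y,
      3 * b ^ 2 * a₁ * X ^ 2 + g 1 * (X ^ 2 * w) + 2 * X * b ^ 2 * B₁ * t + 2 * g 2 * X * Y * w +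
        b ^ 2 * t * c₂ + 3 * g 3 * Y ^ 2 * w,
      3 * b * a₁ * y₁ * X + 2 * X * w * b * B₁ * y₁ + B₁ * y₁ * (b * t) + g 2 * X * w ^ 2 +
        2 * C₁ * b * t * w + 3 * g 3 * Y * w ^ 2,
      a₁ * y₁ ^ 2 + B₁ * y₁ ^ 2 * w + C₁ * y₁ * w ^ 2 + g 3 * w ^ 3]
  have hg0 : g' 0 = gval g X Y := rfl
  have hg1 : g' 1 = 3 * b ^ 2 * a₁ * X ^ 2 + g 1 * (X ^ 2 * w) + 2 * X * b ^ 2 * B₁ * t +
      2 * g 2 * X * Y * w + b ^ 2 * t * c₂ + 3 * g 3 * Y ^ 2 * w := rfl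
  have hg2 : g' 2 = 3 * b * a₁ * y₁ * X + 2 * X * w * b * B₁ * y₁ + B₁ * y₁ * (b * t) +
      g 2 * X * w ^ 2 + 2 * C₁ * b * t * w + 3 * g 3 * Y * w ^ 2 := rfl
  have hg3 : g' 3 = a₁ * y₁ ^ 2 + B₁ * y₁ ^ 2 * w + C₁ * y₁ * w ^ 2 + g 3 * w ^ 3 := rfl
  refine ⟨g', ?_, ?_⟩
  · -- the type
    have e0 : g' 0 ∈ Ideal.span {b ^ 2} * B.bb := by
      have : gval g X Y = g 0 * X ^ 3 + b ^ 2 * (B₁ * X ^ 2 * Y + c₂ * Y * X + d₂ * Y) := by
        unfold gval
        have h1 : g 2 * Y = b ^ 2 * c₂ := by rw [← hC, mul_assoc, hc₂]; ring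
        have h2 : g 3 * Y ^ 2 = b ^ 2 * d₂ := by
          calc g 3 * Y ^ 2 = (g 3 * Y) * Y := by ring
            _ = b * (d₁ * Y) := by rw [hD₁]; ring
            _ = b ^ 2 * d₂ := by rw [hd₂]; ring
        rw [hB₁]
        linear_combination X * Y * h1 + Y * h2
      rw [hg0, this]
      refine Ideal.add_mem _ ?_ ?_
      · exact Ideal.mul_mem_right _ _ hA
      · refine Ideal.mul_mem_mul (Ideal.mem_span_singleton_self _) ?_
        refine Ideal.add_mem _ (Ideal.add_mem _ ?_ ?_) ?_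
        · exact Ideal.mul_mem_left _ _ hY
        · rw [mul_right_comm]
          exact Ideal.mul_mem_left _ _ hY
        · exact Ideal.mul_mem_left _ _ hY
    have e1 : g' 1 ∈ Ideal.span {b ^ 2} := by
      rw [Ideal.mem_span_singleton]
      have h1 : g 2 * Y = b ^ 2 * c₂ := by rw [← hC, mul_assoc, hc₂]; ring
      have h2 : g 3 * Y ^ 2 = b ^ 2 * d₂ := by
        calc g 3 * Y ^ 2 = (g 3 * Y) * Y := by ring
          _ = b * (d₁ * Y) := by rw [hD₁]; ring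
          _ = b ^ 2 * d₂ := by rw [hd₂]; ring
      refine ⟨3 * a₁ * X ^ 2 + B₁ * (X ^ 2 * w) + 2 * X * B₁ * t + 2 * c₂ * X * w + t * c₂ +
        3 * d₂ * w, ?_⟩
      rw [hg1, hB₁]
      linear_combination 2 * X * w * h1 + 3 * w * h2
    have e2 : g' 2 ∈ Ideal.span {b} * B.cc := by
      rw [Ideal.mem_span_singleton_mul]
      refine ⟨3 * a₁ * X * y₁ + 2 * X * w * B₁ * y₁ + B₁ * t * y₁ + X * w ^ 2 * C₁ +
        2 * t * w * C₁ + 3 * w ^ 2 * d₁, ?_, ?_⟩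
      · refine Ideal.add_mem _ (Ideal.add_mem _ (Ideal.add_mem _ (Ideal.add_mem _
          (Ideal.add_mem _ ?_ ?_) ?_) ?_) ?_) ?_
        · exact Ideal.mul_mem_left _ _ hy
        · exact Ideal.mul_mem_left _ _ hy
        · exact Ideal.mul_mem_left _ _ hy
        · exact Ideal.mul_mem_left _ _ hC₁
        · exact Ideal.mul_mem_left _ _ hC₁
        · exact Ideal.mul_mem_left _ _ hd₁
      · rw [hg2, ← hC]
        linear_combination (-3 * w ^ 2) * hD₁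
    have e3 : g' 3 ∈ B.cc ^ 2 := by
      rw [hg3]
      have hyy : y₁ ^ 2 ∈ B.cc ^ 2 := Ideal.pow_mem_pow hy 2
      have hcy : C₁ * y₁ ∈ B.cc ^ 2 := by
        rw [pow_two]
        exact Ideal.mul_mem_mul hC₁ hy
      refine Ideal.add_mem _ (Ideal.add_mem _ (Ideal.add_mem _ ?_ ?_) ?_) ?_
      · exact Ideal.mul_mem_left _ _ hyy
      · exact Ideal.mul_mem_right _ _ (Ideal.mul_mem_left _ _ hyy)
      · exact Ideal.mul_mem_right _ _ hcy
      · exact Ideal.mul_mem_right _ _ hD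
    refine ⟨e0, e1, e2, e3, ?_⟩
    intro p hp
    obtain ⟨be, hbe⟩ := inv_b B p hp (M + 1)
    have hle : p.asIdeal ^ (M + 1) ≤ p.asIdeal ^ M := Ideal.pow_le_pow_right (by omega)
    have hle1 : p.asIdeal ^ (M + 1) ≤ p.asIdeal := Ideal.pow_le_self (by omega)
    have hdet : X * w - be * y₁ * Y = 1 + t * (1 - be * b) := by
      linear_combination ht1 - be * ht
    refine lti k p M (h p) g g' X (be * y₁) Y w hp (hg.thr p hp) ?_ ?_
    · rw [hdet]
      intro hc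
      have h2 : t * (1 - be * b) ∈ p.asIdeal := Ideal.mul_mem_left _ _ (hle1 hbe)
      have h3 := Ideal.sub_mem _ hc h2
      rw [add_sub_cancel_right] at h3
      exact p.isPrime.ne_top ((Ideal.eq_top_iff_one _).2 h3)
    · have key : ∀ i, ∃ E : 𝓞 k, g' i - gact g X (be * y₁) Y w i = E * (1 - be * b) := by
        intro i
        fin_cases i
        · refine ⟨0, ?_⟩
          simp [hg0, gact]
        · refine ⟨3 * b ^ 2 * a₁ * X ^ 2 + 2 * X * b ^ 2 * B₁ * t + b ^ 2 * t * c₂, ?_⟩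
          change g' 1 - (3 * g 0 * X ^ 2 * (be * y₁) + g 1 * (X ^ 2 * w + 2 * X * (be * y₁) * Y) +
            g 2 * (2 * X * Y * w + (be * y₁) * Y ^ 2) + 3 * g 3 * Y ^ 2 * w) = _
          rw [hg1, hB₁, ← hC]
          linear_combination (-3 * X ^ 2 * be) * ha₁ + (-2 * X * be * b ^ 2 * B₁) * ht +
            (-b * be * C₁ * Y) * ht + (-b ^ 2 * be * t) * hc₂
        · refine ⟨(3 * b * a₁ * y₁ * X + B₁ * y₁ * b * t) * (1 + be * b) +
            2 * X * w * b * B₁ * y₁ + 2 * C₁ * b * t * w, ?_⟩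
          change g' 2 - (3 * g 0 * X * (be * y₁) ^ 2 +
            g 1 * (2 * X * (be * y₁) * w + (be * y₁) ^ 2 * Y) +
            g 2 * (X * w ^ 2 + 2 * (be * y₁) * Y * w) + 3 * g 3 * Y * w ^ 2) = _
          rw [hg2, hB₁, ← hC]
          linear_combination (-3 * X * be ^ 2 * y₁) * ha₁ + (-b ^ 2 * B₁ * be ^ 2 * y₁) * ht +
            (-2 * b * C₁ * be * w) * ht
        · refine ⟨a₁ * y₁ ^ 2 * (1 + be * b + (be * b) ^ 2) + B₁ * y₁ ^ 2 * w * (1 + be * b) +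
            C₁ * y₁ * w ^ 2, ?_⟩
          change g' 3 - (g 0 * (be * y₁) ^ 3 + g 1 * (be * y₁) ^ 2 * w +
            g 2 * (be * y₁) * w ^ 2 + g 3 * w ^ 3) = _
          rw [hg3, hB₁, ← hC]
          linear_combination (-be ^ 3 * y₁ ^ 2) * ha₁
      intro i
      obtain ⟨E, hE⟩ := key i
      have : (X * w - be * y₁ * Y) * g' i - gact g X (be * y₁) Y w i =
          (t * g' i + E) * (1 - be * b) := by
        rw [hdet]
        linear_combination hE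
      rw [this]
      exact Ideal.mul_mem_left _ _ (hle hbe)
  · -- the values
    have kt : (y₁ : k) * (Y : k) = (B.b : k) * (t : k) := by
      have := congrArg (algebraMap (𝓞 k) k) ht
      simpa [hbdef] using this
    have ka : (g 0 : k) * (y₁ : k) = (B.b : k) ^ 3 * (a₁ : k) := by
      have := congrArg (algebraMap (𝓞 k) k) ha₁
      simpa [hbdef] using this
    have kB : (g 1 : k) = (B.b : k) ^ 2 * (B₁ : k) := by
      have := congrArg (algebraMap (𝓞 k) k) hB₁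
      simpa [hbdef] using this
    have kC : (B.b : k) * (C₁ : k) = (g 2 : k) := by
      have := congrArg (algebraMap (𝓞 k) k) hC
      simpa [hbdef] using this
    have kc : (C₁ : k) * (Y : k) = (B.b : k) * (c₂ : k) := by
      have := congrArg (algebraMap (𝓞 k) k) hc₂
      simpa [hbdef] using this
    intro i
    fin_cases i
    · change ((g' 0 : 𝓞 k) : k) = gval (fun j => (g j : k)) (X : k) (Y : k)
      rw [hg0]
      simp [gval]
    · change ((g' 1 : 𝓞 k) : k) = 3 * (g 0 : k) * (X : k) ^ 2 * ((y₁ : k) / B.b) +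
        (g 1 : k) * ((X : k) ^ 2 * (w : k) + 2 * (X : k) * ((y₁ : k) / B.b) * (Y : k)) +
        (g 2 : k) * (2 * (X : k) * (Y : k) * (w : k) + ((y₁ : k) / B.b) * (Y : k) ^ 2) +
        3 * (g 3 : k) * (Y : k) ^ 2 * (w : k)
      rw [hg1]
      simp only [hbdef, map_add, map_mul, map_pow, map_ofNat, map_natCast]
      rw [kB, ← kC]
      field_simp
      linear_combination (-3 * (X : k) ^ 2) * ka + (-2 * (X : k) * (B.b : k) ^ 2 * (B₁ : k)) * kt +
        (-(B.b : k) * (C₁ : k) * (Y : k)) * kt + (-(B.b : k) ^ 2 * (t : k)) * kc +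
        (-2 * (B.b : k) * (X : k) * (Y : k) * (w : k)) * kC +
        ((B.b : k) * (X : k) ^ 2 * (w : k)) * kB
    · change ((g' 2 : 𝓞 k) : k) = 3 * (g 0 : k) * (X : k) * ((y₁ : k) / B.b) ^ 2 +
        (g 1 : k) * (2 * (X : k) * ((y₁ : k) / B.b) * (w : k) + ((y₁ : k) / B.b) ^ 2 * (Y : k)) +
        (g 2 : k) * ((X : k) * (w : k) ^ 2 + 2 * ((y₁ : k) / B.b) * (Y : k) * (w : k)) +
        3 * (g 3 : k) * (Y : k) * (w : k) ^ 2
      rw [hg2]
      simp only [hbdef, map_add, map_mul, map_pow, map_ofNat, map_natCast]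
      rw [kB, ← kC]
      field_simp
      linear_combination (-3 * (X : k) * (y₁ : k)) * ka +
        (-(B.b : k) ^ 2 * (B₁ : k) * (y₁ : k)) * kt +
        (-2 * (B.b : k) ^ 2 * (C₁ : k) * (w : k)) * kt +
        (-(B.b : k) ^ 2 * (X : k) * (w : k) ^ 2) * kC
    · change ((g' 3 : 𝓞 k) : k) = (g 0 : k) * ((y₁ : k) / B.b) ^ 3 +
        (g 1 : k) * ((y₁ : k) / B.b) ^ 2 * (w : k) +
        (g 2 : k) * ((y₁ : k) / B.b) * (w : k) ^ 2 + (g 3 : k) * (w : k) ^ 3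
      rw [hg3]
      simp only [map_add, map_mul, map_pow]
      rw [kB, ← kC]
      field_simp
      linear_combination (-(y₁ : k) ^ 2) * ka

theorem tyi (lti : LtiStmt) : TyiStmt := by
  intro k _ _ B M h g hg
  refine ⟨⟨?_, ?_, ?_, ?_, ?_⟩, ?_⟩
  · change -g 0 ∈ _
    exact Ideal.neg_mem_iff _ |>.2 hg.c0
  · exact hg.c1
  · change -g 2 ∈ _
    exact Ideal.neg_mem_iff _ |>.2 hg.c2
  · exact hg.c3
  · intro p hp
    refine lti k p M (h p) g (gmir g) 1 0 0 (-1) hp (hg.thr p hp) ?_ ?_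
    · intro hc
      have h1 : (1 : 𝓞 k) ∈ p.asIdeal := by
        have := Ideal.neg_mem_iff _ |>.2 hc
        simpa using this
      exact p.isPrime.ne_top ((Ideal.eq_top_iff_one _).2 h1)
    · intro i
      have : (1 * (-1) - 0 * 0) * gmir g i - gact g 1 0 0 (-1) i = 0 := by
        fin_cases i <;> (simp [gmir, gact, gval]; try ring)
      rw [this]
      exact Ideal.zero_mem _
  · intro X Y y₁ w hY hy hd
    exact main B M h lti g hg X Y y₁ w hY hy hd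

end Pool.Agent.LeoD.H2
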